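import Mathlib
import Pool.Agent.H27.Bal

namespace Pool.Agent.Results.MP_678251_co.Range
open Finset Pool.Agent.H27.Bal

/-- `x` lies in the image of `f_n` at scale `r`: it is in the convex hull of a nonempty set of
cube vertices of Hamming diameter at most `r`. -/
def InImage (n : ℕ) (r : ℝ) (x : Fin n → ℝ) : Prop :=
  ∃ σ : Finset (Fin n → Bool), σ.Nonempty ∧ (∀ a ∈ σ, ∀ b ∈ σ, (hammingDist a b : ℝ) ≤ r) ∧
    x ∈ convexHull ℝ (emb '' (σ : Set (Fin n → Bool)))

def Rep (n r : ℕ) : Prop := ∀ x : Fin n → ℝ, (∀ i, 0 ≤ x i ∧ x i ≤ 1) →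
  ∃ (ι : Type) (_ : Fintype ι) (v : ι → Fin n → Bool) (w : ι → ℝ),
    (∀ i j, hammingDist (v i) (v j) ≤ r) ∧ (∀ i, 0 ≤ w i) ∧ ∑ i, w i = 1 ∧
      ∀ k, ∑ i, w i * emb (v i) k = x k

lemma rep0 : Rep 0 0 := fun _ _ =>
  ⟨Unit, inferInstance, fun _ => Fin.elim0, fun _ => 1, fun _ _ => by simp, fun _ => zero_le_one,
    by simp, fun k => k.elim0⟩

lemma rep1 : Rep 1 1 := fun x hx =>
  ⟨Bool, inferInstance, fun b _ => b, fun b => if b then x 0 else 1 - x 0, by decide,
    fun b => by have := hx 0; cases b <;> simp <;> linarith, by simp,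
    fun k => by rw [Subsingleton.elim k 0]; simp [emb]⟩

lemma four (x : Fin 3 → ℝ) (v : Fin 4 → Fin 3 → Bool) (w : Fin 4 → ℝ)
    (h1 : ∀ i j, hammingDist (v i) (v j) ≤ 2) (h2 : ∀ i, 0 ≤ w i) (h3 : ∑ i, w i = 1)
    (h4 : ∀ k, ∑ i, w i * emb (v i) k = x k) :
    ∃ (ι : Type) (_ : Fintype ι) (v : ι → Fin 3 → Bool) (w : ι → ℝ),
    (∀ i j, hammingDist (v i) (v j) ≤ 2) ∧ (∀ i, 0 ≤ w i) ∧ ∑ i, w i = 1 ∧
      ∀ k, ∑ i, w i * emb (v i) k = x k := ⟨Fin 4, inferInstance, v, w, h1, h2, h3, h4⟩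

lemma rep3 : Rep 3 2 := by
  intro x hx
  obtain ⟨a0, a1⟩ := hx 0
  obtain ⟨b0, b1⟩ := hx 1
  obtain ⟨c0, c1⟩ := hx 2
  by_cases p : 2 ≤ x 0 + x 1 + x 2
  · refine four x ![![true,true,false],![true,false,true],![false,true,true],![true,true,true]]
      ![1 - x 2, 1 - x 1, 1 - x 0, x 0 + x 1 + x 2 - 2] (by decide) (fun i => ?_) ?_ (fun k => ?_)
    · fin_cases i <;> simp <;> linarith
    · simp [Fin.sum_univ_four]; ring
    · fin_cases k <;> simp [Fin.sum_univ_four, emb] <;> ring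
  by_cases q : x 0 + x 1 ≤ x 2
  · refine four x ![![true,false,true],![false,true,true],![false,false,false],![false,false,true]]
      ![x 0, x 1, 1 - x 2, x 2 - x 0 - x 1] (by decide) (fun i => ?_) ?_ (fun k => ?_)
    · fin_cases i <;> simp <;> linarith
    · simp [Fin.sum_univ_four]; ring
    · fin_cases k <;> simp [Fin.sum_univ_four, emb] <;> ring
  by_cases s : x 0 + x 2 ≤ x 1
  · refine four x ![![true,true,false],![false,true,true],![false,false,false],![false,true,false]]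
      ![x 0, x 2, 1 - x 1, x 1 - x 0 - x 2] (by decide) (fun i => ?_) ?_ (fun k => ?_)
    · fin_cases i <;> simp <;> linarith
    · simp [Fin.sum_univ_four]; ring
    · fin_cases k <;> simp [Fin.sum_univ_four, emb] <;> ring
  by_cases t : x 1 + x 2 ≤ x 0
  · refine four x ![![true,true,false],![true,false,true],![false,false,false],![true,false,false]]
      ![x 1, x 2, 1 - x 0, x 0 - x 1 - x 2] (by decide) (fun i => ?_) ?_ (fun k => ?_)
    · fin_cases i <;> simp <;> linarith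
    · simp [Fin.sum_univ_four]; ring
    · fin_cases k <;> simp [Fin.sum_univ_four, emb] <;> ring
  · refine four x ![![true,true,false],![true,false,true],![false,true,true],![false,false,false]]
      ![(x 0 + x 1 - x 2) / 2, (x 0 + x 2 - x 1) / 2, (x 1 + x 2 - x 0) / 2,
        1 - (x 0 + x 1 + x 2) / 2] (by decide) (fun i => ?_) ?_ (fun k => ?_)
    · fin_cases i <;> simp <;> linarith
    · simp [Fin.sum_univ_four]; ring
    · fin_cases k <;> simp [Fin.sum_univ_four, emb] <;> ring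

lemma Rep.prod {n m r s : ℕ} (h : Rep n r) (h' : Rep m s) : Rep (n + m) (r + s) := by
  intro x hx
  obtain ⟨ι, _, v, w, h1, h2, h3, h4⟩ := h (fun i => x (Fin.castAdd m i)) (fun i => hx _)
  obtain ⟨κ, _, v', w', g1, g2, g3, g4⟩ := h' (fun i => x (Fin.natAdd n i)) (fun i => hx _)
  refine ⟨ι × κ, inferInstance, fun p => Fin.append (v p.1) (v' p.2), fun p => w p.1 * w' p.2,
    fun p q => ?_, fun p => mul_nonneg (h2 _) (g2 _), ?_, fun k => ?_⟩
  · beta_reduce
    rw [ham_append]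
    exact add_le_add (h1 _ _) (g1 _ _)
  · rw [Fintype.sum_prod_type, ← Finset.sum_mul_sum, h3, g3, one_mul]
  · refine Fin.addCases (fun k => ?_) (fun k => ?_) k
    · have e : ∀ p : ι × κ, emb (Fin.append (v p.1) (v' p.2)) (Fin.castAdd m k) = emb (v p.1) k :=
        fun p => by unfold emb; rw [Fin.append_left]
      rw [Finset.sum_congr rfl fun p _ => by rw [e p], Fintype.sum_prod_type, ← h4 k]
      refine Finset.sum_congr rfl fun i _ => ?_
      simp only []
      rw [← Finset.sum_mul, ← Finset.mul_sum, g3, mul_one]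
    · have e : ∀ p : ι × κ, emb (Fin.append (v p.1) (v' p.2)) (Fin.natAdd n k) = emb (v' p.2) k :=
        fun p => by unfold emb; rw [Fin.append_right]
      rw [Finset.sum_congr rfl fun p _ => by rw [e p], Fintype.sum_prod_type_right, ← g4 k]
      refine Finset.sum_congr rfl fun j _ => ?_
      simp only []
      rw [← Finset.sum_mul, ← Finset.sum_mul, h3, one_mul]

lemma rep (n : ℕ) : Rep n (2 * (n / 3) + n % 3) := by
  induction n using Nat.strong_induction_on with
  | _ n ih =>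
    match n, ih with
    | 0, _ => exact rep0
    | 1, _ => exact rep1
    | 2, _ => exact rep1.prod rep1
    | n + 3, ih =>
      have := (ih n (by omega)).prod rep3
      rwa [show 2 * (n / 3) + n % 3 + 2 = 2 * ((n + 3) / 3) + (n + 3) % 3 by omega] at this

theorem result : ∀ (n : ℕ) (r : ℝ), 1 ≤ n → 0 ≤ r →
    (2 * r < n + 1 ∨ (n % 4 = 1 ∧ 2 * r < n + 3) ∨ ((2 * (n / 3) + n % 3 : ℕ) : ℝ) ≤ r) →
    InImage n r (fun _ => (1/2 : ℝ)) →
    ∀ x : Fin n → ℝ, (∀ i, 0 ≤ x i ∧ x i ≤ 1) → InImage n r x := by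
  classical
  intro n r hn hr h0
  have h' : 2 * r < n + 1 ∨ (n % 4 = 1 ∧ 1 < n ∧ 2 * r < n + 3) ∨
      ((2 * (n / 3) + n % 3 : ℕ) : ℝ) ≤ r := by
    rcases h0 with h | ⟨h, h'⟩ | h
    · exact Or.inl h
    · by_cases e : n = 1
      · subst e
        by_cases e' : 1 ≤ r
        · right; right; simpa using e'
        · left; push_cast; linarith
      · exact Or.inr (Or.inl ⟨h, by omega, h'⟩)
    · exact Or.inr (Or.inr h)
  clear h0
  rintro ⟨σ, -, hd, hc⟩ x hx
  rcases h' with h | ⟨h4, hn1, h⟩ | h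
  rotate_left
  · exfalso
    have hl := lowerN (ρ := ⌊r⌋₊) hn σ (fun a ha b hb => Nat.le_floor (hd a ha b hb)) hc
    have h1 : (2 * ⌊r⌋₊ : ℝ) < n + 3 := by have := Nat.floor_le hr; linarith
    have h2 : 2 * ⌊r⌋₊ < n + 3 := by exact_mod_cast h1
    omega
  rotate_left
  · exfalso
    have hl := (lowerN (ρ := ⌊r⌋₊) hn σ (fun a ha b hb => Nat.le_floor (hd a ha b hb)) hc).1
    have h1 : (2 * ⌊r⌋₊ : ℝ) < n + 1 := by have := Nat.floor_le hr; linarith
    have h2 : 2 * ⌊r⌋₊ < n + 1 := by exact_mod_cast h1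
    omega
  · obtain ⟨ι, _, v, w, h1, h2, h3, h4⟩ := rep n x hx
    have hne : Nonempty ι := by
      by_contra e
      rw [not_nonempty_iff] at e
      simp at h3
    refine ⟨univ.image v, by simp, fun a ha b hb => ?_, ?_⟩
    · obtain ⟨i, -, rfl⟩ := Finset.mem_image.mp ha
      obtain ⟨j, -, rfl⟩ := Finset.mem_image.mp hb
      exact le_trans (by exact_mod_cast h1 i j) h
    · refine mem_convexHull_of_exists_fintype w (fun i => emb (v i)) h2 h3
        (fun i => ⟨v i, by simp, rfl⟩) ?_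
      funext k
      simpa [Finset.sum_apply] using h4 k

end Pool.Agent.Results.MP_678251_co.Range
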